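import Pool.Agent.Y491.FP.Final

/-!
# Each inequality `δ_w < δ_{w+1}` is a finite problem

Put `N(ε) = exp (exp (exp (B log(2/ε)³ / ε⁴)))`, with an absolute constant `B`.  For every
`ε` with `0 < ε ≤ 1/2` and every `w ≥ 2`:

* every finite poset `P` of width `w` has a companion `Q` of width `w` with at most
  `max (w, N(ε))` elements and `δ(Q) ≤ δ(P) + ε`; so `δ_w` is known up to `ε` from the posets of
  width `w` with at most `max (w, N(ε))` elements;
* `δ_w < δ_{w+1}` holds if and only if, for some `ε`, a poset `Q` of width `w` with at most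
  `max (w, N(ε))` elements satisfies `δ(Q) + ε < δ(R)` for all posets `R` of width `w + 1` with at
  most `max (w + 1, N(ε))` elements: each true inequality has a proof by a finite computation.

The proof is that of the companion theorem of `MP_33fb9b_co.FiniteProblem` (locality and cutting and
pasting in thin posets); in addition an antichain lies in a short window, so cutting and pasting
outside of the window of a largest antichain preserves the width.
-/

set_option autoImplicit false

namespace Pool.Agent.Results.MP_c890a7_co.FiniteProblemWidth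

open Pool.Agent.H13R3.WB Pool.Agent.H931R3.Bal Pool.Agent.TH447.KL

theorem result : ∃ B : ℝ, 0 < B ∧
    (∀ (ε : ℝ) (w : ℕ), 0 < ε → ε ≤ 1 / 2 → 2 ≤ w →
      (∀ (P : Type) [Fintype P] [PartialOrder P], HasWidth P w →
        ∃ (Q : Type) (_ : Fintype Q) (_ : PartialOrder Q), HasWidth Q w ∧
          (Fintype.card Q : ℝ) ≤ max (w : ℝ)
            (Real.exp (Real.exp (Real.exp (B * Real.log (2 / ε) ^ 3 / ε ^ 4)))) ∧
          balance Q ≤ balance P + ε) ∧
      ∃ (Q : Type) (_ : Fintype Q) (_ : PartialOrder Q), HasWidth Q w ∧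
        (Fintype.card Q : ℝ) ≤ max (w : ℝ)
          (Real.exp (Real.exp (Real.exp (B * Real.log (2 / ε) ^ 3 / ε ^ 4)))) ∧
        dAll w ≤ balance Q ∧ balance Q ≤ dAll w + ε) ∧
    (∀ w : ℕ, 2 ≤ w → (dAll w < dAll (w + 1) ↔
      ∃ ε : ℝ, 0 < ε ∧ ε ≤ 1 / 2 ∧
        ∃ (Q : Type) (_ : Fintype Q) (_ : PartialOrder Q), HasWidth Q w ∧
          (Fintype.card Q : ℝ) ≤ max (w : ℝ)
            (Real.exp (Real.exp (Real.exp (B * Real.log (2 / ε) ^ 3 / ε ^ 4)))) ∧
          ∀ (R : Type) [Fintype R] [PartialOrder R], HasWidth R (w + 1) →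
            (Fintype.card R : ℝ) ≤ max ((w : ℝ) + 1)
              (Real.exp (Real.exp (Real.exp (B * Real.log (2 / ε) ^ 3 / ε ^ 4)))) →
            balance Q + ε < balance R)) :=
  Pool.Agent.Y491.FP.main2'

end Pool.Agent.Results.MP_c890a7_co.FiniteProblemWidth
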